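import Pool.Agent.RelG.Defs
import Pool.Agent.RelO.Defs

/-!
# The polynomial hierarchy, unambiguous machines, and local operators

The machines, the classes `NP`, `E`, `E_2` and the null covers are those of `Pool.Agent.RelM.Defs`, the
supergales those of `Pool.Agent.RelO.Defs`, genericity is defined in `Pool.Agent.RelG.Defs`.
-/

set_option autoImplicit false

namespace Pool.Agent.RelQ

open Pool.Agent.RelM (Lang Instr run Halts pair NP)

/-- `Sig O k` is the class `Σ_(k+1)^p` relative to `O`. -/
def Sig (O : Lang) : ℕ → Set Lang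
  | 0 => NP O
  | k + 1 => {L | ∃ A ∈ Sig O k, L ∈ NP A}

/-- The polynomial hierarchy relative to `O`. -/
def PH (O : Lang) : Set Lang := ⋃ k, Sig O k

/-- The class `UP` relative to `O`: as `NP`, but no word has more than one witness. -/
def UP (O : Lang) : Set Lang :=
  {A | ∃ (P : List Instr) (j k : ℕ), ∀ x : List Bool,
    (∀ y : List Bool, y.length ≤ (x.length + 2) ^ j →
      Halts O P (pair x y) ((x.length + 2) ^ k)) ∧
    (A x = true ↔ ∃ y : List Bool, y.length ≤ (x.length + 2) ^ j ∧
      (run O P (pair x y) ((x.length + 2) ^ k)).st 1 = [true]) ∧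
    ∀ y y' : List Bool, y.length ≤ (x.length + 2) ^ j → y'.length ≤ (x.length + 2) ^ j →
      (run O P (pair x y) ((x.length + 2) ^ k)).st 1 = [true] →
      (run O P (pair x y') ((x.length + 2) ^ k)).st 1 = [true] → y = y'}

/-- The value of `F e O` at `x` depends only on the answers of `O` to the words whose length is
bounded by a polynomial in the length of `x`. -/
def Local (F : ℕ → Lang → Lang) : Prop :=
  ∀ e : ℕ, ∃ d : ℕ, ∀ (O O' : Lang) (x : List Bool),
    (∀ q : List Bool, q.length ≤ (x.length + 2) ^ d → O q = O' q) → F e O x = F e O' x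

end Pool.Agent.RelQ
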