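import Pool.Agent.RelQ.UPP
import Pool.Agent.RelG.LV
import Pool.Agent.RelG.KEY
import Pool.Agent.RelG.CONF
import Pool.Agent.RelG.HID
import Pool.Agent.RelG.GEN
import Pool.Agent.RelG.MEM
import Pool.Agent.RelG.MAIN

/-!
# Assembly
-/

set_option autoImplicit false

namespace Pool.Agent.RelQ

open Pool.Agent.RelM (Lang Instr Cfg run Halts NP E1 E2 Approx IsDensity IsNullCover Null1 Null2
  pair triple str pre)
open Pool.Agent.RelO (st IsGale IsGaleCover GaleNull1 GaleNull2)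
open Pool.Agent.RelG (Conf orc Bud lv ln lg tm Generic lvfacts key conf rule odiff gen bud e1g e2g
  osq0 osq1 tm_odd tm_even)

/-- A null cover by supergales of a class is one of every smaller class. -/
theorem gale1_mono {s : ℝ} {O : Lang} {X Y : Set Lang} (h : X ⊆ Y) (hY : GaleNull1 s O Y) :
    GaleNull1 s O X := by
  obtain ⟨d, hd, P, c, hP⟩ := hY
  exact ⟨d, fun k => ⟨(hd k).1, (hd k).2.1, fun A hA => (hd k).2.2 A (h hA)⟩, P, c, hP⟩

theorem gale2_mono {s : ℝ} {O : Lang} {X Y : Set Lang} (h : X ⊆ Y) (hY : GaleNull2 s O Y) :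
    GaleNull2 s O X := by
  obtain ⟨d, hd, P, c, hP⟩ := hY
  exact ⟨d, fun k => ⟨(hd k).1, (hd k).2.1, fun A hA => (hd k).2.2 A (h hA)⟩, P, c, hP⟩

/-- Supergales for `s = 1` are density functions. -/
theorem null1_of_gale {O : Lang} {X : Set Lang} (h : GaleNull1 1 O X) : Null1 O X := by
  obtain ⟨d, hd, P, c, hP⟩ := h
  refine ⟨d, fun k => ⟨⟨(hd k).1.nonneg, fun w => ?_⟩, (hd k).2.1, (hd k).2.2⟩, P, c, hP⟩
  have := (hd k).1.le w
  rw [Real.rpow_one] at this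
  linarith

theorem main_of (hTHN : T_THN) (hPHF : T_PHF) (hGDE : T_GDE) (hUPG : T_UPG) : T_MAIN := by
  intro F hF
  obtain ⟨Φ, hph, hfe⟩ := hPHF F hF
  obtain ⟨K, hK⟩ := conf lvfacts (key lvfacts) (H Φ)
  have hrule := rule lvfacts odiff (H Φ) K hK
  have hlen : ∀ κ n y, K κ n = some y → y.length = lv κ (ln n) := fun κ n y h => ((hK κ n).2 y h).1
  have hbud : Bud K := bud (H Φ) K hrule hlen
  have hsub : PH (orc (H Φ) K) ∪ {L | ∃ e, L = F e (orc (H Φ) K)} ⊆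
      {L | ∃ e, L = Φ.op e (orc (H Φ) K)} := by
    rintro L (hL | ⟨e, rfl⟩)
    · exact hph _ L hL
    · exact hfe e _
  refine ⟨orc (H Φ) K, fun s hs => ?_, fun c => ?_, fun c => ?_⟩
  · have h := upp hTHN hGDE Φ K hbud s hs
    exact ⟨gale1_mono hsub h.1, gale2_mono hsub h.2⟩
  · refine ⟨lg K (2 * c + 1), ⟨hUPG (H Φ) K hlen _, e1g osq0 osq1 (H Φ) K c⟩, ?_⟩
    rw [← tm_odd]
    exact gen (H Φ) K hrule _
  · refine ⟨lg K (2 * c), ⟨hUPG (H Φ) K hlen _, e2g osq0 osq1 (H Φ) K c⟩, ?_⟩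
    rw [← tm_even]
    exact gen (H Φ) K hrule _

end Pool.Agent.RelQ
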