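import Pool.Agent.RelQ.Targets
import Pool.Agent.RelG.MEM
import Pool.Agent.RelG.ORC
import Pool.Agent.RelM.VCARD

/-!
# Job GDE: the good stages, and membership in `UP`
-/

set_option autoImplicit false

namespace Pool.Agent.RelQ

open Pool.Agent.RelM (Lang Instr Cfg step run Halts Decides E1 E2 NP pair triple binVal outVal
  Approx IsDensity str pre IsNullCover Null1 Null2 Asks hq code qb)
open Pool.Agent.RelO (IsGale IsGaleCover GaleNull1 GaleNull2 st)
open Pool.Agent.RelS (acc)
open Pool.Agent.RelB (ML lcode lcode_surj qf qf_nonneg qf_sum ee)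
open Pool.Agent.RelG (Conf orc Bud lv ln lg tm Generic)

/-- Polynomials against exponentials. -/
theorem p_GDE : T_GDE := by
  intro Φ e
  obtain ⟨d, hd⟩ := Φ.poly e
  obtain ⟨n₁, hn₁⟩ := RelM.poly_lt_exp (4 * d)
  refine ⟨n₁, fun j hj he => ?_⟩
  have h1 : 4 * (j + 2) ^ (4 * d) ≤ 2 ^ j := hn₁ j hj
  have h2 : Φ.bd (st j) (2 * j) ≤ (j + 2) ^ (2 * d) := by
    rw [he]
    refine le_trans (hd (2 * j)) ?_
    rw [pow_mul]
    exact Nat.pow_le_pow_left (by nlinarith) d
  have h3 : 1 ≤ (j + 2) ^ (2 * d) := Nat.one_le_pow _ _ (by omega)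
  have h4 : (j + 2) ^ (4 * d) = (j + 2) ^ (2 * d) * (j + 2) ^ (2 * d) := by
    rw [← pow_add]
    congr 1
    ring
  rw [h4] at h1
  unfold Good
  generalize (j + 2) ^ (2 * d) = B at h1 h2 h3
  generalize Φ.bd (st j) (2 * j) = b at h2 ⊢
  constructor
  · nlinarith
  · nlinarith

/-- The only accepted witness of `str n` is the key. -/
theorem p_UPG : T_UPG := by
  intro G K hK κ
  refine ⟨RelM.vprog κ, κ + 65, κ + 5, ?_⟩
  intro x
  obtain ⟨n, rfl⟩ := RelM.strsurj x
  have htime : κ + 5 ≤ ((str n).length + 2) ^ (κ + 5) :=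
    le_trans (le_of_lt Nat.lt_two_pow_self) (Nat.pow_le_pow_left (by omega) _)
  have hhalt : ∀ y, Halts (orc G K) (RelM.vprog κ) (pair (str n) y) (κ + 5) := by
    intro y
    unfold Halts
    rw [RelM.vprog_length]
    by_cases h : orc G K (RelM.wq κ (str n) y) = true
    · exact (RelM.vprog_run_yes _ κ _ y h).1.ge
    · exact (RelM.vprog_run_no _ κ _ y h).1.ge
  have hrun : ∀ y, run (orc G K) (RelM.vprog κ) (pair (str n) y)
      (((str n).length + 2) ^ (κ + 5)) =
      run (orc G K) (RelM.vprog κ) (pair (str n) y) (κ + 5) :=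
    fun y => RelM.stay _ _ _ _ _ (hhalt y) htime
  have hyes : ∀ y, (run (orc G K) (RelM.vprog κ) (pair (str n) y) (κ + 5)).st 1 = [true] ↔
      K κ n = some y := by
    intro y
    constructor
    · intro h
      by_contra hno
      rw [(RelM.vprog_run_no _ κ _ y (fun hw => hno ((RelG.owq G K κ n y).1 hw))).2] at h
      simp at h
    · intro h
      exact (RelM.vprog_run_yes _ κ _ y ((RelG.owq G K κ n y).2 h)).2
  refine ⟨?_, ?_, ?_⟩
  · intro y _
    have := hhalt y
    unfold Halts at this ⊢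
    rw [hrun y]
    exact this
  · rw [RelG.MEM_.lg_str]
    constructor
    · intro hR
      obtain ⟨y, hy⟩ := Option.isSome_iff_exists.1 hR
      refine ⟨y, ?_, ?_⟩
      · rw [hK κ n y hy, RelG.MEM_.strlen']
        exact RelG.MEM_.lv_le _ _
      · rw [hrun, hyes]
        exact hy
    · rintro ⟨y, -, hy⟩
      rw [hrun, hyes] at hy
      rw [hy]
      rfl
  · intro y y' _ _ hy hy'
    rw [hrun, hyes] at hy hy'
    exact Option.some.inj (hy.symm.trans hy')

end Pool.Agent.RelQ
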