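import Pool.Agent.RelQ.Targets
import Pool.Agent.RelM.LOC
import Pool.Agent.RelM.HFIX

/-!
# RelQ, PHF: the polynomial hierarchy as a family of local operators
-/

set_option autoImplicit false

namespace Pool.Agent.RelQ

open Pool.Agent.RelM (Lang Instr run Halts NP pair qb)
open Pool.Agent.RelS (acc)
open Pool.Agent.RelB (ML lcode lcode_surj)

namespace PHF_

theorem qb_mono (v : List Instr × ℕ × ℕ) {m n : ℕ} (h : m ≤ n) : qb v m ≤ qb v n := by
  unfold qb
  exact Nat.pow_le_pow_left (by omega) _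

theorem hqs_mono (vs : ML) {m n : ℕ} (h : m ≤ n) : hqs vs m ≤ hqs vs n := by
  induction vs generalizing m n with
  | nil => exact h
  | cons v vs ih => exact ih (qb_mono v h)

theorem hqs_poly (vs : ML) : ∃ d, ∀ n, hqs vs n ≤ (n + 2) ^ d := by
  induction vs with
  | nil =>
    refine ⟨1, fun n => ?_⟩
    rw [pow_one]
    exact Nat.le_add_right n 2
  | cons v vs ih =>
    obtain ⟨d, hd⟩ := ih
    refine ⟨(v.2.1 + v.2.2 + 3 + 1) * d, fun n => ?_⟩
    have h1 : qb v n + 2 ≤ (n + 2) ^ (v.2.1 + v.2.2 + 3 + 1) := by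
      unfold qb
      have h2 : 2 ≤ (n + 2) ^ (v.2.1 + v.2.2 + 3) := by
        calc 2 ≤ n + 2 := by omega
          _ = (n + 2) ^ 1 := (pow_one _).symm
          _ ≤ (n + 2) ^ (v.2.1 + v.2.2 + 3) := Nat.pow_le_pow_right (by omega) (by omega)
      rw [pow_succ _ (v.2.1 + v.2.2 + 3)]
      generalize (n + 2) ^ (v.2.1 + v.2.2 + 3) = A at *
      nlinarith
    calc hqs (v :: vs) n = hqs vs (qb v n) := rfl
      _ ≤ (qb v n + 2) ^ d := hd _
      _ ≤ ((n + 2) ^ (v.2.1 + v.2.2 + 3 + 1)) ^ d := Nat.pow_le_pow_left h1 d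
      _ = (n + 2) ^ ((v.2.1 + v.2.2 + 3 + 1) * d) := by rw [← pow_mul]

theorem acc_congr {O O' : Lang} (v : List Instr × ℕ × ℕ) (x : List Bool)
    (h : ∀ u : List Bool, u.length ≤ qb v x.length → O u = O' u) : acc O v x ↔ acc O' v x := by
  unfold acc
  refine exists_congr fun y => and_congr_right fun hy => ?_
  have hb := Pool.Agent.RelM.HFIX_.qb_bound v x.length
  have hl := Pool.Agent.RelM.HFIX_.pair_length x y
  rw [Pool.Agent.RelM.loc_of_short O O' v.1 (pair x y) ((x.length + 2) ^ v.2.2)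
    (fun q hq => h q (by omega)) _ le_rfl]

theorem hacc_cons (O : Lang) (v : List Instr × ℕ × ℕ) (vs : ML) (x : List Bool) :
    hacc O (v :: vs) x = true ↔ acc (hacc O vs) v x := by
  classical
  have h : hacc O (v :: vs) x = decide (acc (hacc O vs) v x) := by
    rw [hacc]
  rw [h]
  exact decide_eq_true_iff

theorem hacc_loc (vs : ML) (O O' : Lang) (x : List Bool)
    (h : ∀ q : List Bool, q.length ≤ hqs vs x.length → O q = O' q) :
    hacc O vs x = hacc O' vs x := by
  induction vs generalizing x with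
  | nil => exact h x le_rfl
  | cons v vs ih =>
    have h1 : acc (hacc O vs) v x ↔ acc (hacc O' vs) v x := by
      refine acc_congr v x fun u hu => ih u fun q hq => h q (hq.trans ?_)
      exact hqs_mono vs hu
    rw [Bool.eq_iff_iff, hacc_cons, hacc_cons]
    exact h1

theorem np_hacc {O : Lang} {vs : ML} {L : Lang} (h : L ∈ NP (hacc O vs)) :
    ∃ vs', L = hacc O vs' := by
  obtain ⟨P, j, k, hP⟩ := h
  refine ⟨(P, j, k) :: vs, funext fun x => ?_⟩
  have h1 := (hP x).2
  rw [Bool.eq_iff_iff, h1, hacc_cons]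
  exact Iff.rfl

theorem sig_hacc {O : Lang} (k : ℕ) : ∀ L ∈ Sig O k, ∃ vs, L = hacc O vs := by
  induction k with
  | zero =>
    intro L hL
    exact np_hacc (vs := []) hL
  | succ k ih =>
    rintro L ⟨A, hA, hL⟩
    obtain ⟨vs, rfl⟩ := ih A hA
    exact np_hacc hL

end PHF_

open PHF_ in
/-- **PHF** -/
theorem p_PHF : T_PHF := by
  intro F hF
  choose d hd using hF
  let Φ : Fam :=
    { op := fun e O => if e % 2 = 0 then hacc O (lcode (e / 2)) else F (e / 2) O
      bd := fun e n => if e % 2 = 0 then hqs (lcode (e / 2)) n else (n + 2) ^ d (e / 2)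
      mono := by
        intro e m n h
        split_ifs
        · exact hqs_mono _ h
        · exact Nat.pow_le_pow_left (by omega) _
      poly := by
        intro e
        split_ifs
        · exact hqs_poly _
        · exact ⟨d (e / 2), fun n => le_rfl⟩
      loc := by
        intro e O O' x h
        split_ifs at h ⊢
        · exact hacc_loc _ O O' x h
        · exact hd (e / 2) O O' x h }
  refine ⟨Φ, fun O L hL => ?_, fun e O => ⟨2 * e + 1, ?_⟩⟩
  · obtain ⟨k, hk⟩ := Set.mem_iUnion.1 hL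
    obtain ⟨vs, rfl⟩ := sig_hacc k L hk
    obtain ⟨e, rfl⟩ := lcode_surj vs
    refine ⟨2 * e, ?_⟩
    change hacc O (lcode e) = if 2 * e % 2 = 0 then hacc O (lcode (2 * e / 2)) else F (2 * e / 2) O
    have h1 : 2 * e % 2 = 0 := by omega
    have h2 : 2 * e / 2 = e := by omega
    rw [if_pos h1, h2]
  · change F e O = if (2 * e + 1) % 2 = 0 then hacc O (lcode ((2 * e + 1) / 2)) else
      F ((2 * e + 1) / 2) O
    have h1 : ¬ (2 * e + 1) % 2 = 0 := by omega
    have h2 : (2 * e + 1) / 2 = e := by omega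
    rw [if_neg h1, h2]

end Pool.Agent.RelQ
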