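import Pool.Agent.RelQ.Targets
import Pool.Agent.RelG.THIN
import Pool.Agent.RelG.LV

/-!
# RelQ, THN: few possible answers at a stage
-/

set_option autoImplicit false

namespace Pool.Agent.RelQ

open Pool.Agent.RelM (Lang str)
open Pool.Agent.RelO (st)
open Pool.Agent.RelG (Conf orc Bud lv ln lvfacts)
open Pool.Agent.RelG.THIN_ (sec rng orc_eq sec_card exists_rng)

namespace THN_

open Classical in
/-- The answers at stage `j` for the configuration `K`. -/
noncomputable def an (Φ : Fam) (G : Lang) (j : ℕ) (K : Conf) : ℕ → Bool :=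
  fun t => decide (Good Φ j ∧ 2 ^ j ≤ t ∧ t < 2 ^ (2 * j) ∧
    Φ.op (st j) (orc G K) (str t) = true)

lemma an_congr (Φ : Fam) (G : Lang) (j : ℕ) (K K' : Conf)
    (hK : ∀ κ n y, K κ n = some y → y.length = lv κ (ln n))
    (hK' : ∀ κ n y, K' κ n = some y → y.length = lv κ (ln n))
    (h : sec K (Φ.bd (st j) (2 * j)) = sec K' (Φ.bd (st j) (2 * j))) :
    an Φ G j K = an Φ G j K' := by
  funext t
  unfold an
  rw [decide_eq_decide]
  refine and_congr_right fun _ => and_congr_right fun _ => and_congr_right fun ht => ?_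
  have hl : (str t).length ≤ 2 * j := by
    have h1 : (str t).length = Nat.log 2 (t + 1) := Pool.Agent.RelM.strlen t
    rw [h1]
    have h2 : Nat.log 2 (t + 1) ≤ Nat.log 2 (2 ^ (2 * j)) := Nat.log_mono_right (by omega)
    rwa [Nat.log_pow (by norm_num)] at h2
  rw [Φ.loc (st j) (orc G K) (orc G K') (str t) fun q hq => orc_eq lvfacts G K K' _ hK hK' h q
    (hq.trans (Φ.mono _ _ _ hl))]

lemma ans_eq (Φ : Fam) (G : Lang) (j : ℕ) :
    Ans Φ G j = {v | ∃ K : Conf, Bud K ∧ v = an Φ G j K} := by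
  ext v
  unfold Ans an
  exact Iff.rfl

open Classical in
lemma good_case (Φ : Fam) (G : Lang) (j : ℕ) :
    (Ans Φ G j).Finite ∧ (Ans Φ G j).ncard ≤ 2 ^ ((Φ.bd (st j) (2 * j) + 1) ^ 2) := by
  set B : ℕ := Φ.bd (st j) (2 * j) with hB
  let F : (Fin (B + 1) → Fin (2 ^ (B + 1))) → (ℕ → Bool) := fun f =>
    if h : ∃ K : Conf, Bud K ∧ sec K B = rng f then an Φ G j h.choose else fun _ => false
  have hsub : Ans Φ G j ⊆ Set.range F := by
    rw [ans_eq]
    rintro v ⟨K, hK, rfl⟩
    obtain ⟨f, hf⟩ := exists_rng B (sec K B) (fun q hq => hq.1) (sec_card K B hK)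
    refine ⟨f, ?_⟩
    have h : ∃ K : Conf, Bud K ∧ sec K B = rng f := ⟨K, hK, hf⟩
    simp only [F, dif_pos h]
    have h1 := h.choose_spec
    refine an_congr Φ G j _ _ h1.1.1 hK.1 ?_
    rw [← hB, h1.2, hf]
  have hfin : (Set.range F).Finite := Set.finite_range F
  refine ⟨hfin.subset hsub, ?_⟩
  calc (Ans Φ G j).ncard ≤ (Set.range F).ncard := Set.ncard_le_ncard hsub hfin
    _ ≤ Nat.card (Fin (B + 1) → Fin (2 ^ (B + 1))) := by
        rw [← Set.image_univ]
        refine (Set.ncard_image_le (Set.toFinite _)).trans ?_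
        rw [Set.ncard_univ]
    _ = 2 ^ ((B + 1) ^ 2) := by
        rw [Nat.card_eq_fintype_card, Fintype.card_fun, Fintype.card_fin, Fintype.card_fin,
          ← pow_mul, sq]

end THN_

open THN_

/-- There are few possible answers at a stage. -/
theorem p_THN : T_THN := by
  intro Φ G j
  obtain ⟨h1, h2⟩ := good_case Φ G j
  refine ⟨h1, ?_⟩
  by_cases hg : Good Φ j
  · exact h2.trans (Nat.pow_le_pow_right (by norm_num) hg.2)
  · have hsub : Ans Φ G j ⊆ {fun _ => false} := by
      rw [ans_eq]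
      rintro v ⟨K, -, rfl⟩
      rw [Set.mem_singleton_iff]
      funext t
      unfold an
      rw [decide_eq_false_iff_not]
      exact fun h => hg h.1
    calc (Ans Φ G j).ncard ≤ ({fun _ => false} : Set (ℕ → Bool)).ncard :=
          Set.ncard_le_ncard hsub (Set.finite_singleton _)
      _ = 1 := Set.ncard_singleton _
      _ ≤ 2 ^ 2 ^ j := Nat.one_le_two_pow

end Pool.Agent.RelQ
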