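import Pool.Agent.RelQ.Defs
import Pool.Agent.RelG.Targets
import Pool.Agent.RelB.DENT
import Pool.Agent.RelM.LOC
import Pool.Agent.RelM.READ

/-!
# Generic languages and a polynomial hierarchy of dimension `0`

The oracles are `orc G K` of `Pool.Agent.RelG.Core`: `K` is a configuration of low entropy (`Bud K`) which
codes the generic languages, `G` is a fixed part. Here the fixed part `H` holds the bits of
supergales: stage `j` gives to the answers of the operator number `st j` on the words of the lengths
`j, ..., 2 j` the uniform distribution over all configurations of low entropy.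
-/

set_option autoImplicit false

namespace Pool.Agent.RelQ

open Pool.Agent.RelM (Lang Instr Cfg step run Halts Decides E1 E2 NP pair triple binVal outVal
  Approx IsDensity str pre IsNullCover Null1 Null2 Asks hq code qb)
open Pool.Agent.RelO (IsGale IsGaleCover GaleNull1 GaleNull2 st)
open Pool.Agent.RelS (acc)
open Pool.Agent.RelB (ML lcode lcode_surj qf qf_nonneg qf_sum ee)
open Pool.Agent.RelG (Conf orc Bud lv ln lg tm Generic)

/-! ## Families of local operators -/

/-- A sequence of operators on languages with bounds for the lengths of the words that matter. -/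
structure Fam where
  /-- The operators. -/
  op : ℕ → Lang → Lang
  /-- The bounds. -/
  bd : ℕ → ℕ → ℕ
  mono : ∀ e m n, m ≤ n → bd e m ≤ bd e n
  poly : ∀ e, ∃ d, ∀ n, bd e n ≤ (n + 2) ^ d
  loc : ∀ (e : ℕ) (O O' : Lang) (x : List Bool),
    (∀ q : List Bool, q.length ≤ bd e x.length → O q = O' q) → op e O x = op e O' x

/-! ## Nested machines -/

open Classical in
/-- The language of the nested nondeterministic machines `vs`. -/
noncomputable def hacc (O : Lang) : ML → Lang
  | [] => O
  | v :: vs => fun x => decide (acc (hacc O vs) v x)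

/-- A bound for the lengths of the queries of `vs` on words of length `n`. -/
def hqs : ML → ℕ → ℕ
  | [], n => n
  | v :: vs, n => hqs vs (qb v n)

/-! ## Stages -/

/-- The operator number `st j` is used at stage `j`. -/
def Good (Φ : Fam) (j : ℕ) : Prop :=
  Φ.bd (st j) (2 * j) + 2 < 2 ^ j ∧ (Φ.bd (st j) (2 * j) + 1) ^ 2 ≤ 2 ^ j

open Classical in
/-- The possible answers at stage `j`, for all configurations of low entropy. -/
noncomputable def Ans (Φ : Fam) (G : Lang) (j : ℕ) : Set (ℕ → Bool) :=
  {v | ∃ K : Conf, Bud K ∧ v = fun t => decide (Good Φ j ∧ 2 ^ j ≤ t ∧ t < 2 ^ (2 * j) ∧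
    Φ.op (st j) (orc G K) (str t) = true)}

/-! ## The supergales -/

/-- The probabilities of `true` for the answers `v`. -/
noncomputable def hv (v : ℕ → Bool) (j t : ℕ) : ℝ :=
  if 2 ^ j ≤ t ∧ t < 2 ^ (2 * j) then (if v t = true then 1 else 0) else 1 / 2

/-- The probability given to `w` by the answers `v`. -/
noncomputable def Pv (v : ℕ → Bool) (j : ℕ) (w : List Bool) : ℝ :=
  ∏ t ∈ Finset.range w.length, qf (hv v j t) (w.getD t false)

open Classical in
/-- The probability given to `w` at stage `j`. -/
noncomputable def Pw (Φ : Fam) (G : Lang) (j : ℕ) (w : List Bool) : ℝ :=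
  if h : (Ans Φ G j).Finite then (∑ v ∈ h.toFinset, Pv v j w) / h.toFinset.card
  else (1 / 2 : ℝ) ^ w.length

/-- The probability given to `w`. -/
noncomputable def PP (Φ : Fam) (G : Lang) (w : List Bool) : ℝ :=
  ∑ j ∈ Finset.range w.length, (1 / 2 : ℝ) ^ (j + 1) * Pw Φ G j w +
    (1 / 2 : ℝ) ^ w.length * (1 / 2 : ℝ) ^ w.length

/-- The parameter of the supergale number `k`. -/
noncomputable def sK (k : ℕ) : ℝ := min 2 (1 / (((ee k).2 : ℝ) + 1))

/-- The supergale number `k`. -/
noncomputable def dd (Φ : Fam) (G : Lang) (k : ℕ) (w : List Bool) : ℝ :=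
  (1 / 2 : ℝ) ^ k * (2 : ℝ) ^ (sK k * w.length) * PP Φ G w

/-- The numerator of the approximation. -/
noncomputable def num (Φ : Fam) (G : Lang) (k r : ℕ) (w : List Bool) : ℕ :=
  ⌊(2 : ℝ) ^ (r + 1) * dd Φ G k w⌋₊

open Classical in
/-- The bits of the numerators of the approximations. -/
noncomputable def bitsOf (Φ : Fam) (G : Lang) : Lang := fun u => decide (
  (∃ j k r w, u = hq false false j k r w ∧ j < Nat.size (num Φ G k r w)) ∨
  (∃ j k r w, u = hq false true j k r w ∧ Nat.testBit (num Φ G k r w) j = true) ∨
  (∃ j k r w, u = hq true false j k r w ∧ j < r + 1))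

/-- The fixed part of the oracle for words of length less than `L`. -/
noncomputable def Hn (Φ : Fam) : ℕ → Lang
  | 0 => fun _ => false
  | L + 1 => fun u => if u.length = L then bitsOf Φ (Hn Φ L) u else Hn Φ L u

/-- The fixed part of the oracle. -/
noncomputable def H (Φ : Fam) : Lang := fun u => Hn Φ (u.length + 1) u

end Pool.Agent.RelQ
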