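import Pool.Agent.RelQ.Targets
import Pool.Agent.RelG.ORC
import Pool.Agent.RelM.HFIX

/-!
# The supergales, their bits and the fixed part of the oracle
-/

set_option autoImplicit false

namespace Pool.Agent.RelQ

open Pool.Agent.RelM (Lang Instr Cfg run Halts triple str pre hq qb)
open Pool.Agent.RelO (IsGale IsGaleCover st)
open Pool.Agent.RelB (ML lcode qf ee qf_nonneg qf_sum)
open Pool.Agent.RelG (Conf orc Bud)
open Pool.Agent.RelM.HFIX_ (hq_inj hq_length triple_length)

/-! ## The probabilities -/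

theorem hv0 (v : ℕ → Bool) (j t : ℕ) : 0 ≤ hv v j t := by
  unfold hv
  split_ifs <;> norm_num

theorem hv1 (v : ℕ → Bool) (j t : ℕ) : hv v j t ≤ 1 := by
  unfold hv
  split_ifs <;> norm_num

theorem Pv_append (v : ℕ → Bool) (j : ℕ) (w : List Bool) (b : Bool) :
    Pv v j (w ++ [b]) = Pv v j w * qf (hv v j w.length) b := by
  unfold Pv
  rw [List.length_append, List.length_singleton, Finset.prod_range_succ]
  congr 1
  · refine Finset.prod_congr rfl fun t ht => ?_
    rw [Finset.mem_range] at ht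
    rw [List.getD_append _ _ _ _ ht]
  · rw [List.getD_append_right _ _ _ _ le_rfl]
    simp

theorem Pv_nonneg (v : ℕ → Bool) (j : ℕ) (w : List Bool) :
    0 ≤ Pv v j w := Finset.prod_nonneg fun _ _ => qf_nonneg (hv0 _ _ _) (hv1 _ _ _) _

theorem Pv_sum (v : ℕ → Bool) (j : ℕ) (w : List Bool) :
    Pv v j (w ++ [false]) + Pv v j (w ++ [true]) = Pv v j w := by
  rw [Pv_append, Pv_append, ← mul_add, qf_sum, mul_one]

theorem Pv_short (v : ℕ → Bool) (j : ℕ) (w : List Bool)
    (h : w.length ≤ 2 ^ j) : Pv v j w = (1 / 2 : ℝ) ^ w.length := by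
  unfold Pv
  rw [Finset.prod_congr rfl (g := fun _ => (1 / 2 : ℝ))]
  · simp
  · intro t ht
    rw [Finset.mem_range] at ht
    have h1 : hv v j t = 1 / 2 := by
      unfold hv
      rw [if_neg]
      omega
    rw [h1]
    unfold qf
    split_ifs <;> norm_num

theorem bud_none : Bud (fun _ _ => none) := by
  refine ⟨fun κ n y h => by simp at h, fun m s hs => ?_⟩
  have : s = ∅ := by
    refine Finset.eq_empty_of_forall_notMem fun p hp => ?_
    have := (hs p hp).1
    simp at this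
  rw [this]
  simp

theorem ans_nonempty (Φ : Fam) (G : Lang) (j : ℕ) : (Ans Φ G j).Nonempty :=
  ⟨_, _, bud_none, rfl⟩

theorem card_pos (Φ : Fam) (G : Lang) (j : ℕ) (h : (Ans Φ G j).Finite) :
    0 < h.toFinset.card := by
  rw [Finset.card_pos]
  obtain ⟨v, hv⟩ := ans_nonempty Φ G j
  exact ⟨v, h.mem_toFinset.2 hv⟩

theorem Pw_nonneg (Φ : Fam) (G : Lang) (j : ℕ) (w : List Bool) :
    0 ≤ Pw Φ G j w := by
  unfold Pw
  split_ifs with h
  · exact div_nonneg (Finset.sum_nonneg fun v _ => Pv_nonneg v j w) (Nat.cast_nonneg _)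
  · positivity

theorem Pw_sum (Φ : Fam) (G : Lang) (j : ℕ) (w : List Bool) :
    Pw Φ G j (w ++ [false]) + Pw Φ G j (w ++ [true]) = Pw Φ G j w := by
  unfold Pw
  split_ifs with h
  · rw [← add_div, ← Finset.sum_add_distrib]
    congr 1
    exact Finset.sum_congr rfl fun v _ => Pv_sum v j w
  · rw [List.length_append, List.length_append, List.length_singleton, List.length_singleton,
      pow_succ]
    ring

theorem Pw_short (Φ : Fam) (G : Lang) (j : ℕ) (w : List Bool)
    (h : w.length ≤ 2 ^ j) : Pw Φ G j w = (1 / 2 : ℝ) ^ w.length := by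
  unfold Pw
  split_ifs with hf
  · rw [Finset.sum_congr rfl (g := fun _ => (1 / 2 : ℝ) ^ w.length)
      (fun v _ => Pv_short v j w h), Finset.sum_const, nsmul_eq_mul]
    have := card_pos Φ G j hf
    have h2 : (0 : ℝ) < hf.toFinset.card := by exact_mod_cast this
    field_simp
  · rfl

theorem PP_nonneg (Φ : Fam) (G : Lang) (w : List Bool) : 0 ≤ PP Φ G w := by
  exact add_nonneg (Finset.sum_nonneg fun j _ => mul_nonneg (by positivity) (Pw_nonneg Φ G j w))
    (by positivity)

theorem PP_sum (Φ : Fam) (G : Lang) (w : List Bool) :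
    PP Φ G (w ++ [false]) + PP Φ G (w ++ [true]) = PP Φ G w := by
  have h1 : Pw Φ G w.length (w ++ [false]) + Pw Φ G w.length (w ++ [true]) =
      (1 / 2 : ℝ) ^ w.length := by
    rw [Pw_sum, Pw_short Φ G w.length w Nat.lt_two_pow_self.le]
  unfold PP
  rw [List.length_append, List.length_append, List.length_singleton, List.length_singleton,
    Finset.sum_range_succ, Finset.sum_range_succ]
  have h2 : ∑ j ∈ Finset.range w.length, (1 / 2 : ℝ) ^ (j + 1) * Pw Φ G j (w ++ [false]) +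
      ∑ j ∈ Finset.range w.length, (1 / 2 : ℝ) ^ (j + 1) * Pw Φ G j (w ++ [true]) =
      ∑ j ∈ Finset.range w.length, (1 / 2 : ℝ) ^ (j + 1) * Pw Φ G j w := by
    rw [← Finset.sum_add_distrib]
    refine Finset.sum_congr rfl fun j _ => ?_
    rw [← mul_add, Pw_sum]
  have h3 : (1 / 2 : ℝ) ^ (w.length + 1) * Pw Φ G w.length (w ++ [false]) +
      (1 / 2 : ℝ) ^ (w.length + 1) * Pw Φ G w.length (w ++ [true]) =
      (1 / 2 : ℝ) ^ (w.length + 1) * (1 / 2 : ℝ) ^ w.length := by
    rw [← mul_add, h1]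
  have h4 : (1 / 2 : ℝ) ^ (w.length + 1) = (1 / 2 : ℝ) ^ w.length * (1 / 2) := pow_succ _ _
  rw [h4] at h3 ⊢
  nlinarith [h2, h3]

theorem PP_nil (Φ : Fam) (G : Lang) : PP Φ G [] = 1 := by
  simp [PP]

theorem PP_le (Φ : Fam) (G : Lang) (w : List Bool) : PP Φ G w ≤ 1 := by
  induction w using List.reverseRecOn with
  | nil => rw [PP_nil]
  | append_singleton w b ih =>
    have h1 := PP_sum Φ G w
    have h2 := PP_nonneg Φ G (w ++ [false])
    have h3 := PP_nonneg Φ G (w ++ [true])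
    cases b <;> linarith

/-! ## The supergales -/

theorem dd_nonneg (Φ : Fam) (G : Lang) (k : ℕ) (w : List Bool) :
    0 ≤ dd Φ G k w := by
  unfold dd
  have := PP_nonneg Φ G w
  positivity

theorem dd_sum (Φ : Fam) (G : Lang) (k : ℕ) (w : List Bool) :
    dd Φ G k (w ++ [false]) + dd Φ G k (w ++ [true]) = (2 : ℝ) ^ sK k * dd Φ G k w := by
  unfold dd
  rw [List.length_append, List.length_append, List.length_singleton, List.length_singleton,
    ← mul_add, PP_sum, Nat.cast_add, Nat.cast_one, mul_add, mul_one,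
    Real.rpow_add (by norm_num : (0 : ℝ) < 2)]
  ring

theorem dgale (Φ : Fam) (G : Lang) (k : ℕ) : IsGale (sK k) (dd Φ G k) :=
  ⟨dd_nonneg Φ G k, fun w => (dd_sum Φ G k w).le⟩

theorem dnil (Φ : Fam) (G : Lang) (k : ℕ) : dd Φ G k [] ≤ (1 / 2 : ℝ) ^ k := by
  unfold dd
  rw [PP_nil]
  simp

theorem dlow (Φ : Fam) (G : Lang) (k j : ℕ) (w : List Bool) (h : j < w.length) :
    (1 / 2 : ℝ) ^ k * (2 : ℝ) ^ (sK k * w.length) * ((1 / 2 : ℝ) ^ (j + 1) * Pw Φ G j w) ≤
      dd Φ G k w := by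
  unfold dd
  refine mul_le_mul_of_nonneg_left ?_ (by positivity)
  unfold PP
  have h1 : (1 / 2 : ℝ) ^ (j + 1) * Pw Φ G j w ≤
      ∑ j ∈ Finset.range w.length, (1 / 2 : ℝ) ^ (j + 1) * Pw Φ G j w := by
    refine Finset.single_le_sum (f := fun j => (1 / 2 : ℝ) ^ (j + 1) * Pw Φ G j w)
      (fun i _ => ?_) (Finset.mem_range.2 h)
    have := Pw_nonneg Φ G i w
    positivity
  have h2 : (0 : ℝ) ≤ (1 / 2 : ℝ) ^ w.length * (1 / 2 : ℝ) ^ w.length := by positivity
  linarith

theorem sK_le (k : ℕ) : sK k ≤ 2 := min_le_left _ _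

theorem dd_le (Φ : Fam) (G : Lang) (k : ℕ) (w : List Bool) :
    dd Φ G k w ≤ 2 ^ (2 * w.length) := by
  unfold dd
  have h1 : (1 / 2 : ℝ) ^ k ≤ 1 := pow_le_one₀ (by norm_num) (by norm_num)
  have h2 : (2 : ℝ) ^ (sK k * w.length) ≤ 2 ^ (2 * w.length) := by
    rw [← Real.rpow_natCast 2 (2 * w.length)]
    refine Real.rpow_le_rpow_of_exponent_le (by norm_num) ?_
    push_cast
    exact mul_le_mul_of_nonneg_right (sK_le k) (by positivity)
  have h3 := PP_le Φ G w
  have h4 := PP_nonneg Φ G w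
  have h5 : (0 : ℝ) ≤ (2 : ℝ) ^ (sK k * w.length) := by positivity
  calc (1 / 2 : ℝ) ^ k * (2 : ℝ) ^ (sK k * w.length) * PP Φ G w
      ≤ 1 * 2 ^ (2 * w.length) * 1 := by gcongr
    _ = _ := by ring

/-! ## Locality -/

theorem anl : T_ANL := by
  classical
  intro Φ G G' j hG
  have key : ∀ K : Conf, (fun t => decide (Good Φ j ∧ 2 ^ j ≤ t ∧ t < 2 ^ (2 * j) ∧
      Φ.op (st j) (orc G K) (str t) = true)) =
      fun t => decide (Good Φ j ∧ 2 ^ j ≤ t ∧ t < 2 ^ (2 * j) ∧
      Φ.op (st j) (orc G' K) (str t) = true) := by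
    intro K
    funext t
    rw [decide_eq_decide]
    refine and_congr_right fun hgood => and_congr_right fun _ => and_congr_right fun ht => ?_
    have hl : (str t).length ≤ 2 * j := by
      rw [Pool.Agent.RelM.strlen]
      have h1 : t + 1 ≤ 2 ^ (2 * j) := ht
      calc Nat.log 2 (t + 1) ≤ Nat.log 2 (2 ^ (2 * j)) := Nat.log_mono_right h1
        _ = 2 * j := Nat.log_pow (by norm_num) _
    rw [Φ.loc (st j) (orc G K) (orc G' K) (str t) fun q hq => ?_]
    refine Pool.Agent.RelG.oloc G G' K (Φ.bd (st j) (2 * j)) (fun u hu => hG u ?_) q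
      (hq.trans (Φ.mono _ _ _ hl))
    have := hgood.1
    omega
  unfold Ans
  ext v
  simp only [Set.mem_ofPred_eq]
  refine exists_congr fun K => and_congr_right fun _ => ?_
  rw [key K]

theorem dlocal (Φ : Fam) (G G' : Lang) (k : ℕ) (w : List Bool)
    (h : ∀ u : List Bool, u.length < w.length → G u = G' u) : dd Φ G k w = dd Φ G' k w := by
  have h1 : PP Φ G w = PP Φ G' w := by
    unfold PP
    congr 1
    refine Finset.sum_congr rfl fun j _ => ?_
    congr 1
    by_cases hj : 2 ^ j ≤ w.length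
    · unfold Pw
      rw [anl Φ G G' j fun u hu => h u (by omega)]
    · rw [Pw_short Φ G j w (by omega), Pw_short Φ G' j w (by omega)]
  unfold dd
  rw [h1]

/-! ## The bits -/

/-- The bits depend only on the shorter words. -/
theorem bloc (Φ : Fam) (G G' : Lang) (u : List Bool)
    (hu : ∀ u' : List Bool, u'.length < u.length → G u' = G' u') :
    bitsOf Φ G u = bitsOf Φ G' u := by
  have key : ∀ (a b : Bool) (j k r : ℕ) (w : List Bool), u = hq a b j k r w →
      num Φ G k r w = num Φ G' k r w := by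
    intro a b j k r w h
    unfold num
    rw [dlocal Φ G G' k w fun u' hu' => hu u' ?_]
    rw [h, hq_length]
    omega
  unfold bitsOf
  rw [decide_eq_decide]
  refine or_congr ?_ (or_congr ?_ Iff.rfl)
  · refine exists_congr fun j => exists_congr fun k => exists_congr fun r =>
      exists_congr fun w => and_congr_right fun h => ?_
    rw [key _ _ _ _ _ _ h]
  · refine exists_congr fun j => exists_congr fun k => exists_congr fun r =>
      exists_congr fun w => and_congr_right fun h => ?_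
    rw [key _ _ _ _ _ _ h]

theorem Hn_eq (Φ : Fam) (u : List Bool) : ∀ L : ℕ, u.length < L → Hn Φ L u = H Φ u := by
  intro L
  induction L with
  | zero => intro h; omega
  | succ L ih =>
    intro h
    by_cases hL : u.length = L
    · unfold H
      rw [hL]
    · have : Hn Φ (L + 1) u = Hn Φ L u := by
        rw [Hn]
        exact if_neg hL
      rw [this]
      exact ih (by omega)

theorem hfx : T_HFX := by
  intro Φ u
  have h1 : H Φ u = bitsOf Φ (Hn Φ u.length) u := by
    unfold H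
    rw [Hn]
    exact if_pos rfl
  rw [h1]
  exact bloc Φ _ _ u fun u' hu' => Hn_eq Φ u' _ hu'

theorem bits (Φ : Fam) (G : Lang) (j k r : ℕ) (w : List Bool) :
    (bitsOf Φ G (hq false false j k r w) = true ↔ j < Nat.size (num Φ G k r w)) ∧
    (bitsOf Φ G (hq false true j k r w) = true ↔ Nat.testBit (num Φ G k r w) j = true) ∧
    (bitsOf Φ G (hq true false j k r w) = true ↔ j < r + 1) := by
  classical
  unfold bitsOf
  refine ⟨?_, ?_, ?_⟩
  · rw [decide_eq_true_eq]
    constructor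
    · rintro (⟨j', k', r', w', h, h'⟩ | ⟨j', k', r', w', h, h'⟩ | ⟨j', k', r', w', h, h'⟩)
      · obtain ⟨-, -, rfl, rfl, rfl, rfl⟩ := hq_inj h
        exact h'
      · obtain ⟨-, h2, -⟩ := hq_inj h
        exact absurd h2 (by decide)
      · obtain ⟨h2, -⟩ := hq_inj h
        exact absurd h2 (by decide)
    · intro h
      exact Or.inl ⟨j, k, r, w, rfl, h⟩
  · rw [decide_eq_true_eq]
    constructor
    · rintro (⟨j', k', r', w', h, h'⟩ | ⟨j', k', r', w', h, h'⟩ | ⟨j', k', r', w', h, h'⟩)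
      · obtain ⟨-, h2, -⟩ := hq_inj h
        exact absurd h2 (by decide)
      · obtain ⟨-, -, rfl, rfl, rfl, rfl⟩ := hq_inj h
        exact h'
      · obtain ⟨h2, -⟩ := hq_inj h
        exact absurd h2 (by decide)
    · intro h
      exact Or.inr (Or.inl ⟨j, k, r, w, rfl, h⟩)
  · rw [decide_eq_true_eq]
    constructor
    · rintro (⟨j', k', r', w', h, h'⟩ | ⟨j', k', r', w', h, h'⟩ | ⟨j', k', r', w', h, h'⟩)
      · obtain ⟨h2, -⟩ := hq_inj h
        exact absurd h2 (by decide)
      · obtain ⟨h2, -⟩ := hq_inj h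
        exact absurd h2 (by decide)
      · obtain ⟨-, -, rfl, rfl, rfl, rfl⟩ := hq_inj h
        exact h'
    · intro h
      exact Or.inr (Or.inr ⟨j, k, r, w, rfl, h⟩)

theorem numok (Φ : Fam) (G : Lang) (k r : ℕ) (w : List Bool) :
    Nat.size (num Φ G k r w) ≤ 2 * (triple k r w).length + 4 ∧
    |(num Φ G k r w : ℝ) / 2 ^ (r + 1) - dd Φ G k w| ≤ (1 / 2 : ℝ) ^ r := by
  have h0 : 0 ≤ dd Φ G k w := dd_nonneg Φ G k w
  have h1 : 0 ≤ (2 : ℝ) ^ (r + 1) * dd Φ G k w := by positivity
  constructor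
  · rw [Nat.size_le]
    have h2 : num Φ G k r w ≤ 2 ^ (r + 1) * 2 ^ (2 * w.length) := by
      unfold num
      refine Nat.floor_le_of_le ?_
      push_cast
      exact mul_le_mul_of_nonneg_left (dd_le Φ G k w) (by positivity)
    calc num Φ G k r w ≤ 2 ^ (r + 1) * 2 ^ (2 * w.length) := h2
      _ = 2 ^ (r + 1 + 2 * w.length) := (pow_add _ _ _).symm
      _ < 2 ^ (2 * (triple k r w).length + 4) := by
        rw [triple_length]
        exact Nat.pow_lt_pow_right (by norm_num) (by omega)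
  · have h2 : ((num Φ G k r w : ℕ) : ℝ) ≤ (2 : ℝ) ^ (r + 1) * dd Φ G k w := Nat.floor_le h1
    have h3 : (2 : ℝ) ^ (r + 1) * dd Φ G k w < (num Φ G k r w : ℕ) + 1 := Nat.lt_floor_add_one _
    have hp : (0 : ℝ) < 2 ^ (r + 1) := by positivity
    have h4 : (num Φ G k r w : ℝ) / 2 ^ (r + 1) - dd Φ G k w =
        ((num Φ G k r w : ℝ) - 2 ^ (r + 1) * dd Φ G k w) / 2 ^ (r + 1) := by
      field_simp
    rw [h4, abs_div, abs_of_pos hp, div_le_iff₀ hp, abs_le]
    have h5 : (1 / 2 : ℝ) ^ r * 2 ^ (r + 1) = 2 := by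
      rw [pow_succ, ← mul_assoc, ← mul_pow]
      norm_num
    rw [h5]
    constructor <;> linarith

end Pool.Agent.RelQ
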