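import Pool.Agent.RelQ.Core

/-!
# RelQ: the targets of the jobs

THEOREM (`MP_a0edbc_lc`, replaces `GenericNull`): for every sequence of local operators `F` there is an
oracle `O` relative to which the whole polynomial hierarchy, together with all `F e O`, has dimension
`0` (so `NP` has `p`-measure `0`), although for every `c` there are `(l + 2) ^ c`-generic languages in
`UP ∩ E` and `2 ^ ((log l + 2) ^ c)`-generic languages in `UP ∩ E_2`.

Every target `T_X` is to be proved as `theorem p_X : T_X` in a NEW file `Pool/Agent/RelQ/P_X.lean`,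
namespace `Pool.Agent.RelQ`, helper lemmas in `X_`. All landed files of `Pool/Agent/RelG` (theorems
`lvfacts`, `owq`, `osq0`, `osq1`, `ott`, `odiff`, `oloc`, `thin`, ..), `RelM`, `RelS`, `RelB`, `RelC` may be used.
-/

set_option autoImplicit false

namespace Pool.Agent.RelQ

open Pool.Agent.RelM (Lang Instr Cfg step run Halts Decides E1 E2 NP pair triple binVal outVal
  Approx IsDensity str pre IsNullCover Null1 Null2 Asks hq code qb)
open Pool.Agent.RelO (IsGale IsGaleCover GaleNull1 GaleNull2 st)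
open Pool.Agent.RelS (acc)
open Pool.Agent.RelB (ML lcode lcode_surj qf qf_nonneg qf_sum ee)
open Pool.Agent.RelG (Conf orc Bud lv ln lg tm Generic)

/-- **THN** (30 min). Template `RelG/THIN.lean` (its lemmas may be used directly). If `Good Φ j` fails,
`Ans Φ G j` has the one element `fun _ => false`. Otherwise let `B = Φ.bd (st j) (2 * j)`; for `t < 2 ^ (2 * j)`
the word `str t` has length at most `2 * j` (`RelM.strlen`), so by `Φ.loc` and `Φ.mono` the value
`Φ.op (st j) (orc G K) (str t)` depends only on the answers of `orc G K` to words of length at most `B`, so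
(`RelG.THIN_.orc_eq lvfacts`) only on `RelG.THIN_.sec K B`, a set of at most `B + 1` words of length at most `B`
(`sec_card`, `exists_rng`). So `Ans Φ G j` is contained in the image of a function on
`Fin (B + 1) → Fin (2 ^ (B + 1))`, a set with `2 ^ ((B + 1) ^ 2) ≤ 2 ^ 2 ^ j` elements. -/
def T_THN : Prop := ∀ (Φ : Fam) (G : Lang) (j : ℕ),
  (Ans Φ G j).Finite ∧ (Ans Φ G j).ncard ≤ 2 ^ 2 ^ j

/-- **PHF** (40 min). Let `Φ.op (2 * e) O = hacc O (lcode e)`, `Φ.bd (2 * e) n = hqs (lcode e) n`, and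
`Φ.op (2 * e + 1) O = F e O`, `Φ.bd (2 * e + 1) n = (n + 2) ^ d e` (`d e` chosen from `Local F`). `loc` for `hacc`:
induction on the list, a query in a run of `acc O v x` has length at most `qb v x.length` (template
`RelB/ACC.lean`: `ask_len`, `acc_congr`, `qb_mono`; `RelG/THIN.lean`: `acc_congr`, `RelM.HFIX_.qb_bound`). `poly`:
`hqs vs n ≤ (n + 2) ^ d` by induction on `vs` (`qb v n + 2 ≤ (n + 2) ^ (a + 1)`). `PH`: if `L ∈ Sig O k` then
`L = hacc O vs` for some `vs` (induction on `k`; `L ∈ NP (hacc O vs)` by a program `P` with exponents `b`, `c` is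
`hacc O ((P, b, c) :: vs)`), and `vs = lcode e` by `lcode_surj`. -/
def T_PHF : Prop := ∀ F : ℕ → Lang → Lang, Local F → ∃ Φ : Fam,
  (∀ (O L : Lang), L ∈ PH O → ∃ e, L = Φ.op e O) ∧ ∀ (e : ℕ) (O : Lang), ∃ e', F e O = Φ.op e' O

/-- **GDE** (20 min, with T_UPG). Polynomials against exponentials: `Φ.bd (st j) (2 * j) ≤ (2 * j + 2) ^ d` with
`d` from `Φ.poly` for `e = st j`; template `RelG/GOOD.lean` (`RelM.poly_lt_exp`) or `RelS.NN_.exp_bound`. -/
def T_GDE : Prop := ∀ (Φ : Fam) (e : ℕ), ∃ j₀ : ℕ, ∀ j, j₀ ≤ j → st j = e → Good Φ j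

/-- **GDE**, second part (10 min): copy of `RelG.npg` (`RelG/MEM.lean`), the only accepted witness of
`str n` is the key `y` with `K κ n = some y` (`RelG.owq`). -/
def T_UPG : Prop := ∀ (G : Lang) (K : Conf), (∀ κ n y, K κ n = some y → y.length = lv κ (ln n)) →
  ∀ κ, lg K κ ∈ UP (orc G K)

/-- **DENT** (helper18). -/
def T_ANL : Prop := ∀ (Φ : Fam) (G G' : Lang) (j : ℕ),
  (∀ u : List Bool, u.length < 2 ^ j → G u = G' u) → Ans Φ G j = Ans Φ G' j

/-- **DENT** (helper18). -/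
def T_HFX : Prop := ∀ (Φ : Fam) (u : List Bool), H Φ u = bitsOf Φ (H Φ) u

/-- **UPP** (helper18). -/
def T_UPP : Prop := ∀ (Φ : Fam) (K : Conf), Bud K → ∀ s : ℝ, 0 < s →
  GaleNull1 s (orc (H Φ) K) {L | ∃ e, L = Φ.op e (orc (H Φ) K)} ∧
  GaleNull2 s (orc (H Φ) K) {L | ∃ e, L = Φ.op e (orc (H Φ) K)}

/-- The theorem. -/
def T_MAIN : Prop := ∀ F : ℕ → Lang → Lang, Local F → ∃ O : Lang,
  (∀ s : ℝ, 0 < s → GaleNull1 s O (PH O ∪ {L | ∃ e, L = F e O}) ∧
    GaleNull2 s O (PH O ∪ {L | ∃ e, L = F e O})) ∧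
  (∀ c : ℕ, ∃ A ∈ UP O ∩ E1 O, Generic O (fun l => (l + 2) ^ c) A) ∧
  (∀ c : ℕ, ∃ A ∈ UP O ∩ E2 O, Generic O (fun l => 2 ^ ((Nat.log 2 l + 2) ^ c)) A)

end Pool.Agent.RelQ
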