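import Pool.Agent.RelQ.DENT
import Pool.Agent.RelB.P_AFF
import Pool.Agent.RelB.UPP
import Pool.Agent.RelS.SHIFT
import Pool.Agent.RelO.FAM
import Pool.Agent.RelO.MAIN
import Pool.Agent.RelM.READ

/-!
# The classes have dimension `0`
-/

set_option autoImplicit false

namespace Pool.Agent.RelQ

open Pool.Agent.RelM (Lang Instr Cfg run Halts NP E1 E2 Approx IsDensity IsNullCover Null1 Null2
  pair triple str pre hq Asks code qb)
open Pool.Agent.RelO (st IsGale IsGaleCover GaleNull1 GaleNull2)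
open Pool.Agent.RelB (ML lcode lcode_surj qf ee ee_kk T_AFF p_AFF)
open Pool.Agent.RelG (Conf orc Bud)

/-- The supergales can be computed in polynomial time. -/
theorem appr : ∃ (P : List Instr) (c : ℕ), ∀ (Φ : Fam) (K : Conf),
    Approx (orc (H Φ) K) P (fun l => (l + 2) ^ c) (dd Φ (H Φ)) := by
  obtain ⟨P, c, h⟩ := Pool.Agent.RelM.read Pool.Agent.RelM.stay
  refine ⟨P, c, fun Φ K k r w => ?_⟩
  have h1 := h (orc (H Φ) K) (num Φ (H Φ))
    (fun j k r w => by rw [Pool.Agent.RelG.ott, hfx]; exact (bits Φ (H Φ) j k r w).1)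
    (fun j k r w => by rw [Pool.Agent.RelG.ott, hfx]; exact (bits Φ (H Φ) j k r w).2.1)
    (fun j k r w => by rw [Pool.Agent.RelG.ott, hfx]; exact (bits Φ (H Φ) j k r w).2.2)
    (fun k r w => (numok Φ (H Φ) k r w).1) k r w
  refine ⟨h1.1, ?_⟩
  rw [h1.2]
  exact (numok Φ (H Φ) k r w).2

/-- The probability of the answers `v`. -/
theorem Pv_self (v : ℕ → Bool) (j : ℕ) (A : Lang)
    (h : ∀ t, 2 ^ j ≤ t → t < 2 ^ (2 * j) → v t = A (str t)) :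
    Pv v j (pre A (2 ^ (2 * j))) = (1 / 2 : ℝ) ^ (2 ^ j) := by
  have hle : 2 ^ j ≤ 2 ^ (2 * j) := Nat.pow_le_pow_right (by norm_num) (by omega)
  unfold Pv
  rw [Pool.Agent.RelB.pre_length, ← Finset.prod_range_mul_prod_Ico _ hle]
  have h1 : ∏ t ∈ Finset.range (2 ^ j), qf (hv v j t)
      ((pre A (2 ^ (2 * j))).getD t false) = (1 / 2 : ℝ) ^ (2 ^ j) := by
    rw [Finset.prod_congr rfl (g := fun _ => (1 / 2 : ℝ))]
    · simp
    · intro t ht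
      rw [Finset.mem_range] at ht
      have h1 : hv v j t = 1 / 2 := by
        unfold hv
        rw [if_neg]
        omega
      rw [h1]
      unfold qf
      split_ifs <;> norm_num
  have h2 : ∏ t ∈ Finset.Ico (2 ^ j) (2 ^ (2 * j)), qf (hv v j t)
      ((pre A (2 ^ (2 * j))).getD t false) = 1 := by
    refine Finset.prod_eq_one fun t ht => ?_
    have ht' := Finset.mem_Ico.1 ht
    rw [Pool.Agent.RelB.pre_getD _ ht'.2]
    unfold hv
    rw [if_pos ht', h t ht'.1 ht'.2]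
    rcases hA : A (str t) with _ | _
    · simp [qf]
    · simp [qf]
  rw [h1, h2, mul_one]

/-- The probability at a good stage. -/
theorem Pw_low (hTHN : T_THN) (Φ : Fam) (G : Lang) (K : Conf) (hK : Bud K) (j : ℕ)
    (hj : Good Φ j) :
    (1 / 2 : ℝ) ^ (2 ^ j) * (1 / 2 : ℝ) ^ (2 ^ j) ≤
      Pw Φ G j (pre (Φ.op (st j) (orc G K)) (2 ^ (2 * j))) := by
  classical
  obtain ⟨hfin, hcard⟩ := hTHN Φ G j
  obtain ⟨v, hv⟩ : ∃ v : ℕ → Bool, v = fun t => decide (Good Φ j ∧ 2 ^ j ≤ t ∧ t < 2 ^ (2 * j) ∧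
    Φ.op (st j) (orc G K) (str t) = true) := ⟨_, rfl⟩
  have hmem : v ∈ hfin.toFinset := hfin.mem_toFinset.2 ⟨K, hK, hv⟩
  have hP := Pv_self v j (Φ.op (st j) (orc G K)) (by
    intro t h1 h2
    rw [hv]
    simp [hj, h1, h2])
  unfold Pw
  rw [dif_pos hfin]
  have hc := card_pos Φ G j hfin
  have hc1 : (0 : ℝ) < hfin.toFinset.card := by exact_mod_cast hc
  have hc2 : ((hfin.toFinset.card : ℕ) : ℝ) ≤ 2 ^ 2 ^ j := by
    rw [Set.ncard_eq_toFinset_card _ hfin] at hcard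
    exact_mod_cast hcard
  rw [le_div_iff₀ hc1]
  have h1 : Pv v j (pre (Φ.op (st j) (orc G K)) (2 ^ (2 * j))) ≤
      ∑ v ∈ hfin.toFinset, Pv v j (pre (Φ.op (st j) (orc G K)) (2 ^ (2 * j))) :=
    Finset.single_le_sum (f := fun v => Pv v j (pre (Φ.op (st j) (orc G K)) (2 ^ (2 * j))))
      (fun v _ => Pv_nonneg v j _) hmem
  refine le_trans ?_ h1
  rw [hP, mul_assoc]
  have h2 : (1 / 2 : ℝ) ^ (2 ^ j) * (hfin.toFinset.card : ℝ) ≤ 1 := by
    calc (1 / 2 : ℝ) ^ (2 ^ j) * (hfin.toFinset.card : ℝ) ≤ (1 / 2 : ℝ) ^ (2 ^ j) * 2 ^ 2 ^ j := by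
          gcongr
      _ = 1 := by rw [← mul_pow]; norm_num
  have h3 : (0 : ℝ) ≤ (1 / 2 : ℝ) ^ (2 ^ j) := by positivity
  nlinarith

/-- The supergale number `k` is large on the languages of the family. -/
theorem cov (hTHN : T_THN) (hGDE : T_GDE) (Φ : Fam) (K : Conf) (hK : Bud K) (n e : ℕ) (k : ℕ)
    (hk : (ee k).2 = n) : ∃ N, 1 ≤ dd Φ (H Φ) k (pre (Φ.op e (orc (H Φ) K)) N) := by
  classical
  obtain ⟨n0, hn⟩ := Pool.Agent.RelS.NN_.exp_bound 1 ((n + 1) * (k + 3)) 0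
  obtain ⟨j0, hj0⟩ := hGDE Φ e
  obtain ⟨j, hjn, hst⟩ : ∃ j, max n0 j0 ≤ j ∧ st j = e := by
    refine ⟨Nat.pair e (max n0 j0), Nat.right_le_pair _ _, ?_⟩
    unfold st
    rw [Nat.unpair_pair]
  have hgood := hj0 j (le_trans (le_max_right _ _) hjn) hst
  have hP := Pw_low hTHN Φ (H Φ) K hK j hgood
  rw [hst] at hP
  have hj2 : (n + 1) * (k + j + 3) ≤ 2 ^ j := by
    have h1 := hn j (le_trans (le_max_left _ _) hjn)
    rw [pow_one] at h1
    have h2 : k + j + 3 ≤ (k + 3) * (j + 2) := by nlinarith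
    calc (n + 1) * (k + j + 3) ≤ (n + 1) * ((k + 3) * (j + 2)) := by gcongr
      _ = (n + 1) * (k + 3) * (j + 0 + 2) := by ring
      _ ≤ 2 ^ j := by omega
  refine ⟨2 ^ (2 * j), ?_⟩
  have hjN : j < (pre (Φ.op e (orc (H Φ) K)) (2 ^ (2 * j))).length := by
    rw [Pool.Agent.RelB.pre_length]
    have h1 : 2 * j < 2 ^ (2 * j) := Nat.lt_two_pow_self
    omega
  refine le_trans ?_ (dlow Φ (H Φ) k j _ hjN)
  rw [Pool.Agent.RelB.pre_length]
  have hsK : sK k = 1 / ((n : ℝ) + 1) := by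
    unfold sK
    rw [hk]
    apply min_eq_right
    have : (1 : ℝ) / ((n : ℝ) + 1) ≤ 1 := by
      rw [div_le_one (by positivity)]
      linarith [Nat.cast_nonneg (α := ℝ) n]
    linarith
  have hhalf : ∀ m : ℕ, (1 / 2 : ℝ) ^ m = (2 : ℝ) ^ (-(m : ℝ)) := by
    intro m
    rw [Real.rpow_neg (by norm_num), Real.rpow_natCast, one_div, inv_pow]
  have hkey : 0 ≤ -(k : ℝ) + sK k * ((2 ^ (2 * j) : ℕ) : ℝ) +
      (-((j + 1 : ℕ) : ℝ) + (-((2 ^ j : ℕ) : ℝ) + -((2 ^ j : ℕ) : ℝ))) := by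
    rw [hsK]
    have hj3 : ((n : ℝ) + 1) * (k + j + 3) ≤ 2 ^ j := by exact_mod_cast hj2
    have hM1 : (1 : ℝ) ≤ 2 ^ j := one_le_pow₀ (by norm_num)
    have hN : ((2 ^ (2 * j) : ℕ) : ℝ) = 2 ^ j * 2 ^ j := by push_cast; rw [← pow_add]; ring_nf
    rw [hN]
    have h3 : (2 : ℝ) ^ j * ((k : ℝ) + j + 3) ≤ 1 / ((n : ℝ) + 1) * (2 ^ j * 2 ^ j) := by
      rw [div_mul_eq_mul_div, one_mul, le_div_iff₀ (by positivity)]
      calc (2 : ℝ) ^ j * ((k : ℝ) + j + 3) * (n + 1) = 2 ^ j * ((n + 1) * (k + j + 3)) := by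
            ring
        _ ≤ 2 ^ j * 2 ^ j := by gcongr
    have h4 : (k : ℝ) + j + 1 ≤ 2 ^ j * ((k : ℝ) + j + 1) := by
      have : (0 : ℝ) ≤ (k : ℝ) + j + 1 := by positivity
      nlinarith
    push_cast
    nlinarith
  calc (1 : ℝ) = (2 : ℝ) ^ (0 : ℝ) := (Real.rpow_zero 2).symm
    _ ≤ (2 : ℝ) ^ (-(k : ℝ) + sK k * ((2 ^ (2 * j) : ℕ) : ℝ) +
      (-((j + 1 : ℕ) : ℝ) + (-((2 ^ j : ℕ) : ℝ) + -((2 ^ j : ℕ) : ℝ)))) :=
        Real.rpow_le_rpow_of_exponent_le (by norm_num) hkey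
    _ = (1 / 2 : ℝ) ^ k * (2 : ℝ) ^ (sK k * ((2 ^ (2 * j) : ℕ) : ℝ)) *
      ((1 / 2 : ℝ) ^ (j + 1) * ((1 / 2 : ℝ) ^ (2 ^ j) * (1 / 2 : ℝ) ^ (2 ^ j))) := by
        rw [hhalf, hhalf, hhalf, Real.rpow_add (by norm_num), Real.rpow_add (by norm_num),
          Real.rpow_add (by norm_num), Real.rpow_add (by norm_num)]
    _ ≤ _ := by gcongr

/-- The family has dimension `0`. -/
theorem upp (hTHN : T_THN) (hGDE : T_GDE) : T_UPP := by
  intro Φ K hK s hs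
  obtain ⟨n, hl⟩ := exists_nat_one_div_lt hs
  obtain ⟨e, he⟩ : ∃ e, e = Nat.pair 0 n := ⟨_, rfl⟩
  have hee : ∀ k, ee (2 ^ (e + 1) * k + (2 ^ e - 1)) = (0, n) := by
    intro k
    rw [ee_kk, he, Nat.unpair_pair]
  have hcov : IsGaleCover s (fun k => dd Φ (H Φ) (2 ^ (e + 1) * k + (2 ^ e - 1)))
      {L | ∃ e, L = Φ.op e (orc (H Φ) K)} := by
    intro k
    refine ⟨Pool.Agent.RelO.MAIN_.gale_mono ?_ (dgale Φ (H Φ) _), ?_, ?_⟩
    · unfold sK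
      rw [hee]
      refine (min_le_right _ _).trans ?_
      exact hl.le
    · refine (dnil Φ (H Φ) _).trans ?_
      refine pow_le_pow_of_le_one (by norm_num) (by norm_num) ?_
      have h1 : 1 ≤ 2 ^ (e + 1) := Nat.one_le_two_pow
      have h2 : 1 * k ≤ 2 ^ (e + 1) * k := Nat.mul_le_mul_right k h1
      omega
    · rintro A ⟨i, rfl⟩
      exact cov hTHN hGDE Φ K hK n i _ (by rw [hee])
  obtain ⟨P, c, hap⟩ := appr
  obtain ⟨P', c', hap'⟩ := p_AFF (orc (H Φ) K) P c (2 ^ (e + 1)) (2 ^ e - 1) _ (hap Φ K)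
  refine ⟨⟨_, hcov, P', c', hap'⟩, ?_⟩
  obtain ⟨c'', hc''⟩ := Pool.Agent.RelO.t12 c'
  exact ⟨_, hcov, P', c'', Pool.Agent.RelO.time _ _ _ _ _ hc'' hap'⟩

end Pool.Agent.RelQ
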